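import Pool.Agent.H20.PX.E

/-!
# PX-06 the tetrahedron lemma (note 1414, Z3)

All vertices are simple.  `v` is adjacent to `a₁, a₂, a₃` (distinct), `a₂` is adjacent to `a₁` and `a₃`.  Then `a₁` and `a₃` are adjacent.

`G` = face with `v ∈ G`, `nb K v ∩ G = {a₁,a₂,a₃}` (`simple_sub`); `dimc G = 3` (`simple_face`, `Set.ncard_eq_three` or `ncard_insert_of_notMem`).
At `a₂ ∈ G`: `nb K a₂ ∩ G` has `dimc G = 3` elements (`simple_face` at `a₂`, which is an extreme point by `nb_ext`), and contains `v, a₁, a₃` (distinct: `v ≠ a₁` etc.), so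
`nb K a₂ ∩ G = {v, a₁, a₃}` (`Set.eq_of_subset_of_ncard_le`).
Let `e i = a i - v`; `e₁, e₂, e₃` are linearly independent (`simple_indep` at `v`); `dual_exists`: functionals `φ₂` with `φ₂ e₂ = -1`, `φ₂ e₁ = φ₂ e₃ = 0` and
`φ` with `φ e₁ = φ e₃ = 1`, `φ e₂ = 0` (apply `dual_exists` to the whole family `fun a : nb K v => a - v` with suitable `c`).
`cone_main` for `G` at `a₂` (`G` is a `Body`, extreme points `ext_face`, `nb G a₂ = nb K a₂ ∩ G` by `nb_face`):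
every `y ∈ G` is `a₂ + l₀ (v - a₂) + l₁ (a₁ - a₂) + l₃ (a₃ - a₂)`, `l ≥ 0`, so `y - v = (1 - l₀ - l₁ - l₃) e₂ + l₁ e₁ + l₃ e₃`.  From `cone_main` for `G` at `v`:
`y - v = m₁ e₁ + m₂ e₂ + m₃ e₃`, `m ≥ 0`.  Apply the functionals: `φ (y - v) = l₁ + l₃` and `-φ₂ (y - v) = m₂ = 1 - l₀ - l₁ - l₃ ≥ 0`.  Hence
`φ (y - v) = l₁ + l₃ ≤ 1 - l₀ ≤ 1` on `G`, with equality only if `l₀ = 0`, `l₁ + l₃ = 1`, and then `m₂ = 0` and `y = v + l₁ e₁ + l₃ e₃ ∈ [a₁,a₃]`.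
Conversely all points of `[a₁,a₃]` are in `G` (convex) and have `φ (y - v) = 1`.  So `[a₁,a₃] = {y ∈ G : φ y = φ v + 1}` is a face of `G` (`isFace_max`), so of `K` (`IsFace.trans`).
-/

namespace Pool.Agent.H20.PX

open Set Pool.Agent.H61.PO Pool.Agent.H40.PC

variable {E : Type*} [NormedAddCommGroup E] [NormedSpace ℝ E] [FiniteDimensional ℝ E]
  {K : Set E}

theorem tetra (hK : Body K) (hf : (extremePoints ℝ K).Finite)
    (hs : ∀ x ∈ extremePoints ℝ K, (nb K x).ncard = dimc K) {v a₁ a₂ a₃ : E}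
    (h1 : a₁ ∈ nb K v) (h2 : a₂ ∈ nb K v) (h3 : a₃ ∈ nb K v) (h12 : a₁ ∈ nb K a₂)
    (h32 : a₃ ∈ nb K a₂) (h13 : a₁ ≠ a₃) : a₃ ∈ nb K a₁ := by
  classical
  have hv : v ∈ extremePoints ℝ K := (nb_ext h1).1
  have hv2 : a₂ ∈ extremePoints ℝ K := (nb_ext h2).2
  have n1 : a₁ ≠ v := h1.1
  have n2 : a₂ ≠ v := h2.1
  have n3 : a₃ ≠ v := h3.1
  have n12 : a₁ ≠ a₂ := h12.1
  have n32 : a₃ ≠ a₂ := h32.1
  obtain ⟨G, hG, hvG, hN⟩ := simple_sub hK hf hv (hs v hv) (S := {a₁, a₂, a₃}) (by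
    rintro x (rfl | rfl | rfl)
    · exact h1
    · exact h2
    · exact h3)
  have g1 : a₁ ∈ G := (show a₁ ∈ nb K v ∩ G by rw [hN]; simp).2
  have g2 : a₂ ∈ G := (show a₂ ∈ nb K v ∩ G by rw [hN]; simp).2
  have g3 : a₃ ∈ G := (show a₃ ∈ nb K v ∩ G by rw [hN]; simp).2
  have hd : dimc G = 3 := by
    rw [simple_face hK hf hv (hs v hv) hG hvG, hN]
    exact Set.ncard_eq_three.2 ⟨a₁, a₂, a₃, n12, h13, n32.symm, rfl⟩
  have hd2 := simple_face hK hf hv2 (hs a₂ hv2) hG g2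
  have hN2 : ({v, a₁, a₃} : Set E) = nb K a₂ ∩ G := by
    refine Set.eq_of_subset_of_ncard_le ?_ ?_ ((nb_finite hf a₂).inter_of_left G)
    · rintro x (rfl | rfl | rfl)
      · exact ⟨nb_symm.1 h2, hvG⟩
      · exact ⟨h12, g1⟩
      · exact ⟨h32, g3⟩
    · rw [← hd2, hd, Set.ncard_eq_three.2 ⟨v, a₁, a₃, n1.symm, n3.symm, h13, rfl⟩]
  have hGb : Body G := hG.body
  have hGf : (extremePoints ℝ G).Finite := by
    rw [ext_face hG]
    exact hf.subset Set.inter_subset_right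
  have ev : v ∈ extremePoints ℝ G := by
    rw [ext_face hG]
    exact ⟨hvG, hv⟩
  have ev2 : a₂ ∈ extremePoints ℝ G := by
    rw [ext_face hG]
    exact ⟨g2, hv2⟩
  have c1 := cone_main hGb hGf ev (N := {a₁, a₂, a₃}) (fun a => by
    rw [nb_face hG hvG, hN]
    simp)
  have c2 := cone_main hGb hGf ev2 (N := {v, a₁, a₃}) (fun a => by
    rw [nb_face hG g2, ← hN2]
    simp)
  have hind := simple_indep hK hf hv (hs v hv)
  obtain ⟨φ, hφ⟩ := dual_exists hind (fun a : nb K v => if (a : E) = a₂ then (0 : ℝ) else 1)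
  obtain ⟨ψ, hψ⟩ := dual_exists hind (fun a : nb K v => if (a : E) = a₂ then (1 : ℝ) else 0)
  have φ1 : φ (a₁ - v) = 1 := by simpa [n12] using hφ ⟨a₁, h1⟩
  have φ2 : φ (a₂ - v) = 0 := by simpa using hφ ⟨a₂, h2⟩
  have φ3 : φ (a₃ - v) = 1 := by simpa [n32] using hφ ⟨a₃, h3⟩
  have ψ1 : ψ (a₁ - v) = 0 := by simpa [n12] using hψ ⟨a₁, h1⟩
  have ψ2 : ψ (a₂ - v) = 1 := by simpa using hψ ⟨a₂, h2⟩
  have ψ3 : ψ (a₃ - v) = 0 := by simpa [n32] using hψ ⟨a₃, h3⟩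
  rw [map_sub] at φ1 φ2 φ3 ψ1 ψ2 ψ3
  -- coordinates at `a₂`
  have key : ∀ y ∈ G, ∃ l0 l1 l3 : ℝ, 0 ≤ l0 ∧ 0 ≤ l1 ∧ 0 ≤ l3 ∧ l0 + l1 + l3 ≤ 1 ∧
      y = a₂ + l0 • (v - a₂) + l1 • (a₁ - a₂) + l3 • (a₃ - a₂) := by
    intro y hy
    obtain ⟨m, hm, hm'⟩ := c1 hy
    obtain ⟨l, hl, hl'⟩ := c2 hy
    have s1 : ∑ a ∈ ({a₁, a₂, a₃} : Finset E), m a • (a - v) =
        m a₁ • (a₁ - v) + (m a₂ • (a₂ - v) + m a₃ • (a₃ - v)) := by
      rw [Finset.sum_insert, Finset.sum_insert, Finset.sum_singleton]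
      · simpa using n32.symm
      · simp [n12, h13]
    have s2 : ∑ a ∈ ({v, a₁, a₃} : Finset E), l a • (a - a₂) =
        l v • (v - a₂) + (l a₁ • (a₁ - a₂) + l a₃ • (a₃ - a₂)) := by
      rw [Finset.sum_insert, Finset.sum_insert, Finset.sum_singleton]
      · simpa using h13
      · simp [n1.symm, n3.symm]
    rw [s1] at hm'
    rw [s2] at hl'
    refine ⟨l v, l a₁, l a₃, hl _, hl _, hl _, ?_, by rw [hl']; abel⟩
    have e1 : ψ y = ψ v + m a₂ := by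
      rw [hm']
      simp only [map_add, map_smul, map_sub, smul_eq_mul]
      rw [ψ1, ψ2, ψ3]
      ring
    have e2 : ψ y = ψ v + (1 - l v - l a₁ - l a₃) := by
      rw [hl']
      simp only [map_add, map_smul, map_sub, smul_eq_mul]
      rw [show ψ a₂ = ψ v + 1 by linarith, show ψ a₁ = ψ v by linarith,
        show ψ a₃ = ψ v by linarith]
      ring
    have e3 := hm a₂
    linarith
  have hval : ∀ l0 l1 l3 : ℝ, φ (a₂ + l0 • (v - a₂) + l1 • (a₁ - a₂) + l3 • (a₃ - a₂)) =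
      φ v + (l1 + l3) := by
    intro l0 l1 l3
    simp only [map_add, map_smul, map_sub, smul_eq_mul]
    rw [show φ a₂ = φ v by linarith, show φ a₁ = φ v + 1 by linarith,
      show φ a₃ = φ v + 1 by linarith]
    ring
  have hle : ∀ y ∈ G, φ y ≤ φ v + 1 := by
    intro y hy
    obtain ⟨l0, l1, l3, p0, p1, p3, ps, rfl⟩ := key y hy
    rw [hval]
    linarith
  have hface := isFace_max hGb hle ⟨a₁, g1, by linarith⟩
  have heq : {x | x ∈ G ∧ φ x = φ v + 1} = segment ℝ a₁ a₃ := by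
    apply Set.Subset.antisymm
    · rintro y ⟨hy, hy'⟩
      obtain ⟨l0, l1, l3, p0, p1, p3, ps, rfl⟩ := key y hy
      rw [hval] at hy'
      have q0 : l0 = 0 := by linarith
      have q1 : l1 + l3 = 1 := by linarith
      refine ⟨l1, l3, p1, p3, q1, ?_⟩
      have q2 : l1 = 1 - l3 := by linarith
      rw [q0, q2]
      module
    · rintro y ⟨s, t, hs0, ht0, hst, rfl⟩
      refine ⟨hGb.1 g1 g3 hs0 ht0 hst, ?_⟩
      rw [map_add, map_smul, map_smul, smul_eq_mul, smul_eq_mul,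
        show φ a₁ = φ v + 1 by linarith, show φ a₃ = φ v + 1 by linarith, ← add_mul, hst, one_mul]
  rw [heq] at hface
  exact ⟨h13.symm, hG.trans hface⟩

end Pool.Agent.H20.PX
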