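import Pool.Agent.H20.PX.D

/-!
# PX-05 simple vertices (number of neighbours = dimension)

* `dual_exists`: `e` is a basis of its span (`Module.Basis.span h`); the linear functional on the span with values `c i` (`Basis.constr`) extends to `E`
  (`LinearMap.exists_extend`), and it is continuous (`LinearMap.toContinuousLinearMap`).
* `simple_indep`: `linearIndependent_iff_card_le_finrank_span`: the number of neighbours is `dimc K = finrank (vectorSpan ℝ K)` and `vectorSpan ℝ K ≤ span {a - x}` by
  `cone_main`, `cone_span` (as in `deg_ge`).  (`Fintype` of the subtype from `nb_finite`.)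
* `simple_face`: `G` is a `Body` with finitely many extreme points (`ext_face`), `x ∈ extremePoints ℝ G`, `nb G x = nb K x ∩ G` (`nb_face`), so `dimc G ≤ ncard` by
  `deg_ge`.  Conversely the vectors `a - x`, `a ∈ nb K x ∩ G`, are linearly independent (`simple_indep`, `LinearIndependent.comp` with the inclusion) and
  in `vectorSpan ℝ G` (`vsub_mem_vectorSpan`), so `ncard ≤ dimc G` (`LinearIndependent.fintype_card_le_finrank` in `vectorSpan ℝ G`, or `finrank_span_eq_card` and
  `Submodule.finrank_mono`).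
* `simple_sub`: `dual_exists` gives `φ` with `φ (a - x) = 0` for `a ∈ S` and `= -1` for the other neighbours `a`.  By `cone_main` every `y ∈ K` has
  `φ y = φ x + ∑ l a * φ (a - x) ≤ φ x`.  `G = {y ∈ K : φ y = φ x}` is a face (`isFace_max`), it contains `x`; a neighbour `a` is in `K`, and it is in `G` iff `φ (a - x) = 0` iff
  `a ∈ S`.
-/

namespace Pool.Agent.H20.PX

open Set Pool.Agent.H61.PO Pool.Agent.H40.PC

variable {E : Type*} [NormedAddCommGroup E] [NormedSpace ℝ E] [FiniteDimensional ℝ E]
  {K G : Set E} {x : E}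

theorem dual_exists {ι : Type*} {e : ι → E} (h : LinearIndependent ℝ e) (c : ι → ℝ) :
    ∃ φ : E →L[ℝ] ℝ, ∀ i, φ (e i) = c i := by
  obtain ⟨g, hg⟩ := LinearMap.exists_extend ((Module.Basis.span h).constr ℝ c)
  refine ⟨LinearMap.toContinuousLinearMap g, fun i => ?_⟩
  have h1 : e i = ((Module.Basis.span h i : Submodule.span ℝ (Set.range e)) : E) :=
    (congrArg Subtype.val (Module.Basis.span_apply h i)).symm
  show g (e i) = c i
  rw [h1]
  have h2 := LinearMap.congr_fun hg (Module.Basis.span h i)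
  rw [Module.Basis.constr_basis] at h2
  exact h2

private theorem PXE_finset (hf : (extremePoints ℝ K).Finite) (x : E) :
    ∃ N : Finset E, ∀ a, a ∈ N ↔ a ∈ nb K x :=
  ⟨(nb_finite hf x).toFinset, fun _ => Set.Finite.mem_toFinset _⟩

private theorem PXE_vs (hK : Body K) (hf : (extremePoints ℝ K).Finite)
    (hx : x ∈ extremePoints ℝ K) :
    vectorSpan ℝ K ≤ Submodule.span ℝ (Set.range (fun a : nb K x => (a : E) - x)) := by
  obtain ⟨N, hN⟩ := PXE_finset hf x
  have h1 : ∀ y ∈ K, y - x ∈ Submodule.span ℝ (Set.range (fun a : nb K x => (a : E) - x)) := by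
    intro y hy
    refine Submodule.span_mono ?_ (cone_span (cone_main hK hf hx hN hy))
    rintro _ ⟨a, ha, rfl⟩
    exact ⟨⟨a, (hN a).mp ha⟩, rfl⟩
  rw [vectorSpan_def, Submodule.span_le]
  rintro _ ⟨y, hy, y', hy', rfl⟩
  have : y -ᵥ y' = (y - x) - (y' - x) := by
    rw [vsub_eq_sub]; abel
  show y -ᵥ y' ∈ Submodule.span ℝ (Set.range (fun a : nb K x => (a : E) - x))
  rw [this]
  exact Submodule.sub_mem _ (h1 y hy) (h1 y' hy')

theorem simple_indep (hK : Body K) (hf : (extremePoints ℝ K).Finite) (hx : x ∈ extremePoints ℝ K)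
    (hs : (nb K x).ncard = dimc K) : LinearIndependent ℝ (fun a : nb K x => (a : E) - x) := by
  have hfin : (nb K x).Finite := nb_finite hf x
  haveI : Fintype (nb K x) := hfin.fintype
  rw [linearIndependent_iff_card_le_finrank_span]
  have h1 : Fintype.card (nb K x) = (nb K x).ncard := by
    rw [← Nat.card_eq_fintype_card]
    rfl
  rw [h1, hs]
  exact Submodule.finrank_mono (PXE_vs hK hf hx)

theorem simple_face (hK : Body K) (hf : (extremePoints ℝ K).Finite) (hx : x ∈ extremePoints ℝ K)
    (hs : (nb K x).ncard = dimc K) (hG : IsFace K G) (hxG : x ∈ G) :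
    dimc G = (nb K x ∩ G).ncard := by
  have hGf : (extremePoints ℝ G).Finite := by
    rw [ext_face hG]
    exact hf.subset Set.inter_subset_right
  have hxe : x ∈ extremePoints ℝ G := by
    rw [ext_face hG]
    exact ⟨hxG, hx⟩
  apply le_antisymm
  · have h1 := deg_ge hG.body hGf hxe
    rwa [nb_face hG hxG] at h1
  · have hfin : (nb K x ∩ G).Finite := (nb_finite hf x).subset Set.inter_subset_left
    haveI : Fintype (nb K x ∩ G : Set E) := hfin.fintype
    have hi := (simple_indep hK hf hx hs).comp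
      (Set.inclusion (Set.inter_subset_left : nb K x ∩ G ⊆ nb K x))
      (Set.inclusion_injective _)
    have h1 : (nb K x ∩ G).ncard = Fintype.card (nb K x ∩ G : Set E) := by
      rw [← Nat.card_eq_fintype_card]
      rfl
    have h2 := finrank_span_eq_card hi
    rw [h1, ← h2]
    apply Submodule.finrank_mono
    rw [Submodule.span_le]
    rintro _ ⟨a, rfl⟩
    exact vsub_mem_vectorSpan ℝ a.2.2 hxG

theorem simple_sub (hK : Body K) (hf : (extremePoints ℝ K).Finite) (hx : x ∈ extremePoints ℝ K)
    (hs : (nb K x).ncard = dimc K) {S : Set E} (hS : S ⊆ nb K x) :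
    ∃ G, IsFace K G ∧ x ∈ G ∧ nb K x ∩ G = S := by
  classical
  obtain ⟨N, hN⟩ := PXE_finset hf x
  obtain ⟨φ, hφ⟩ := dual_exists (simple_indep hK hf hx hs)
    (fun a : nb K x => if (a : E) ∈ S then (0:ℝ) else -1)
  have hφ' : ∀ a ∈ nb K x, φ (a - x) = if a ∈ S then (0:ℝ) else -1 := fun a ha => hφ ⟨a, ha⟩
  have hxK : x ∈ K := extremePoints_subset hx
  have hmax : ∀ y ∈ K, φ y ≤ φ x := by
    intro y hy
    obtain ⟨l, hl, hyl⟩ := cone_main hK hf hx hN hy
    rw [hyl, map_add, map_sum]
    have h1 : ∑ a ∈ N, φ (l a • (a - x)) ≤ 0 := by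
      apply Finset.sum_nonpos
      intro a ha
      rw [map_smul, hφ' a ((hN a).mp ha), smul_eq_mul]
      split_ifs
      · simp
      · have := hl a
        linarith
    linarith
  refine ⟨{y | y ∈ K ∧ φ y = φ x}, isFace_max hK hmax ⟨x, hxK, rfl⟩, ⟨hxK, rfl⟩, ?_⟩
  ext a
  constructor
  · rintro ⟨ha, -, h2⟩
    by_contra hS'
    have h3 := hφ' a ha
    rw [if_neg hS', map_sub, h2, sub_self] at h3
    norm_num at h3
  · intro ha
    have hna := hS ha
    refine ⟨hna, extremePoints_subset (nb_ext hna).2, ?_⟩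
    have h3 := hφ' a hna
    rw [if_pos ha, map_sub] at h3
    linarith

end Pool.Agent.H20.PX
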