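import Pool.Agent.H20.PX.D
import Pool.Agent.H20.PX.E

/-!
# PX-08 a polytope with `dim + 1` vertices is a simplex

* `simplex_aff`: `affineIndependent_iff_finrank_vectorSpan_eq` (for a finite index type with `n + 1` elements: `finrank (vectorSpan ℝ (range p)) = n`), `Subtype.range_coe`,
  `dimc K = dimc (extremePoints ℝ K)` (`hull_ext`, `dimc_convexHull`).
* `simplex_face`: `S ⊆ ext K` not empty, `ext K` affinely independent and finite.  Extreme points of `convexHull ℝ S`: `S` (⊆: `extremePoints_convexHull_subset`; ⊇: a point of `S` is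
  extreme in `K`, so in the smaller set `convexHull ℝ S ⊆ K`: `inter_extremePoints_subset_extremePoints_of_subset`).
  Compact: `Set.Finite.isCompact_convexHull`.  Extreme subset: let `y ∈ convexHull ℝ S`, `y` in the open segment of `p, q ∈ K = convexHull ℝ (ext K)`; barycentric coordinates:
  for every vertex `v` there is an affine function `λ_v` with `λ_v v = 1` and `λ_v = 0` on the other vertices (extend: affine independent points, e.g. `dual_exists` of
  `PX/E.lean` applied to the differences, or the coordinate functions of an affine basis of `affineSpan ℝ K`, see `exists_affineIndependent`/`AffineBasis.coord`;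
  easiest: `Finset.mem_convexHull` gives weights, and weights are unique by affine independence).  Then with `w_p, w_q ≥ 0` the weights of `p, q`: the weights of `y` are
  `s w_p + t w_q`, `s, t > 0`; they vanish outside `S`, so `w_p` and `w_q` vanish outside `S` and `p, q ∈ convexHull ℝ S`.
  Alternative proof without weights: induction/`isFace_max` with the continuous functional `φ` (from `dual_exists` applied to the differences `v - v₀`, `v₀ ∈ S` fixed) with
  `φ (v - v₀) = 0` for `v ∈ S` and `= -1` for the other vertices: `φ ≤ φ v₀` on `K = convexHull ℝ (ext K)`, `{y ∈ K : φ y = φ v₀}` is a face, its extreme points are the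
  vertices of `K` in it (`ext_face`), that is `S`, so by `hull_ext` it equals `convexHull ℝ S`.  (RECOMMENDED; you may import `Pool.Agent.H20.PX.E` for `dual_exists`.)
* `simplex_face_dim`: `dimc (convexHull ℝ S) = dimc S` and `AffineIndependent.finrank_vectorSpan` (or the version with finsets `AffineIndependent.finrank_vectorSpan_image_finset`).
* `simplex_nb`: `a ∈ ext K`, `a ≠ x`: `convexHull ℝ {x,a} = segment ℝ x a` (`convexHull_pair`) is a face by `simplex_face`.
-/

namespace Pool.Agent.H20.PX

open Set Pool.Agent.H61.PO Pool.Agent.H40.PC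

variable {E : Type*} [NormedAddCommGroup E] [NormedSpace ℝ E] [FiniteDimensional ℝ E]
  {K : Set E} {x : E}

theorem simplex_aff (hK : Body K) (hf : (extremePoints ℝ K).Finite)
    (h : (extremePoints ℝ K).ncard = dimc K + 1) :
    AffineIndependent ℝ (fun a : extremePoints ℝ K => (a : E)) := by
  have : Fintype (extremePoints ℝ K) := hf.fintype
  have hc : Fintype.card (extremePoints ℝ K) = dimc K + 1 := by
    rw [← h, Set.ncard_eq_toFinset_card', Set.toFinset_card]
  rw [affineIndependent_iff_finrank_vectorSpan_eq ℝ _ hc, Subtype.range_coe]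
  change dimc (extremePoints ℝ K) = dimc K
  rw [← dimc_convexHull, hull_ext hK]

theorem simplex_face (hK : Body K) (hf : (extremePoints ℝ K).Finite)
    (h : AffineIndependent ℝ (fun a : extremePoints ℝ K => (a : E))) {S : Set E}
    (hS : S ⊆ extremePoints ℝ K) (hn : S.Nonempty) :
    IsFace K (convexHull ℝ S) ∧ extremePoints ℝ (convexHull ℝ S) = S := by
  classical
  obtain ⟨v0, hv0⟩ := hn
  have hli := (affineIndependent_iff_linearIndependent_vsub ℝ
    (fun a : extremePoints ℝ K => (a : E)) ⟨v0, hS hv0⟩).1 h
  obtain ⟨φ, hφ⟩ := dual_exists hli (fun i => if ((i : extremePoints ℝ K) : E) ∈ S then 0 else -1)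
  have key1 : ∀ v ∈ S, φ v = φ v0 := by
    intro v hv
    by_cases hvv : v = v0
    · rw [hvv]
    · have h1 := hφ ⟨⟨v, hS hv⟩, fun he => hvv (congrArg Subtype.val he)⟩
      simp only [vsub_eq_sub, map_sub] at h1
      rw [if_pos hv] at h1
      linarith
  have key2 : ∀ v ∈ extremePoints ℝ K, v ∉ S → φ v = φ v0 - 1 := by
    intro v hv hvS
    have hvv : v ≠ v0 := fun he => hvS (he ▸ hv0)
    have h1 := hφ ⟨⟨v, hv⟩, fun he => hvv (congrArg Subtype.val he)⟩
    simp only [vsub_eq_sub, map_sub] at h1
    rw [if_neg hvS] at h1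
    linarith
  have hle : ∀ x ∈ K, φ x ≤ φ v0 := by
    apply sub_of_ext hK (C := {y | φ y ≤ φ v0}) (convex_halfSpace_le φ.toLinearMap.isLinear _)
    intro v hv
    by_cases hvS : v ∈ S
    · exact (key1 v hvS).le
    · have := key2 v hv hvS
      change φ v ≤ φ v0
      linarith
  have hF := isFace_max hK hle ⟨v0, (hS hv0).1, rfl⟩
  have hext : extremePoints ℝ {x | x ∈ K ∧ φ x = φ v0} = S := by
    rw [ext_face hF]
    apply Set.Subset.antisymm
    · rintro v ⟨⟨hvK, hvφ⟩, hv⟩
      by_contra hvS
      have := key2 v hv hvS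
      linarith
    · intro v hv
      exact ⟨⟨(hS hv).1, key1 v hv⟩, hS hv⟩
  have hhull : convexHull ℝ S = {x | x ∈ K ∧ φ x = φ v0} := by
    rw [← hext]
    exact hull_ext hF.body
  rw [hhull]
  exact ⟨hF, hext⟩

theorem simplex_face_dim (hf : (extremePoints ℝ K).Finite)
    (h : AffineIndependent ℝ (fun a : extremePoints ℝ K => (a : E))) {S : Set E}
    (hS : S ⊆ extremePoints ℝ K) (hn : S.Nonempty) : dimc (convexHull ℝ S) + 1 = S.ncard := by
  have hSf : S.Finite := hf.subset hS
  have : Fintype S := hSf.fintype
  have h1 : AffineIndependent ℝ (fun a : S => (a : E)) := h.mono hS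
  have hpos : 0 < S.ncard := (Set.ncard_pos hSf).2 hn
  have hc : Fintype.card S = (S.ncard - 1) + 1 := by
    have : S.ncard = Fintype.card S := by
      rw [Set.ncard_eq_toFinset_card', Set.toFinset_card]
    omega
  have h2 := h1.finrank_vectorSpan hc
  rw [Subtype.range_coe] at h2
  rw [dimc_convexHull]
  unfold dimc
  omega

theorem simplex_nb (hK : Body K) (hf : (extremePoints ℝ K).Finite)
    (h : AffineIndependent ℝ (fun a : extremePoints ℝ K => (a : E)))
    (hx : x ∈ extremePoints ℝ K) : nb K x = extremePoints ℝ K \ {x} := by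
  apply Set.Subset.antisymm
  · intro a ha
    exact ⟨(nb_ext ha).2, ha.1⟩
  · rintro a ⟨ha, hax⟩
    refine ⟨hax, ?_⟩
    have h1 : ({x, a} : Set E) ⊆ extremePoints ℝ K := by
      intro y hy
      rcases hy with rfl | hy
      · exact hx
      · rw [Set.mem_singleton_iff] at hy
        rw [hy]
        exact ha
    have h2 := (simplex_face hK hf h h1 ⟨x, Set.mem_insert _ _⟩).1
    rwa [convexHull_pair] at h2

end Pool.Agent.H20.PX
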