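import Pool.Agent.H20.PX.Defs

/-!
# PX-01 neighbours and edges

* `nb_symm`: `segment_symm`, `ne_comm`.
* `nb_ext`: `x` is an extreme point of the segment `[x,a]` (`edge_eq` gives the two extreme points, or directly), extreme points of a face are extreme in
  `K` (`ext_face`).  Direct proof: `{x}` is a face of `segment ℝ x a`: use `two_ext_min` with a functional `φ` from `edge_coord` (`φ x < φ a`, injective on the
  segment, and `φ x ≤ φ z` for `z = x + t (a - x)`, `0 ≤ t`), then `ext_face`; for `a` use `nb_symm`.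
* `nb_finite`: `nb K x ⊆ extremePoints ℝ K`.
* `nb_face`: if `[x,a]` is a face of `G` then of `K` (`IsFace.trans`) and `a ∈ [x,a] ⊆ G` (`IsFace.sub`); conversely if `x, a ∈ G`, `G` convex then `[x,a] ⊆ G` and
  `IsFace.mono`.
* `nb_dim`: `vectorSpan ℝ (segment ℝ x a) = vectorSpan ℝ {x, a}` (`convexHull_pair`, `dimc_convexHull`), and
  `finrank (vectorSpan ℝ {x,a}) = 1` (`vectorSpan_pair`, `finrank_span_singleton`).
* `edge_at`: `F = [p,q]`, `ext F = {p,q}`, `p ≠ q` (`edge_eq`, `IsFace.body`), and `x ∈ ext F` (`ext_face`), so `x = p` (take `a = q`) or `x = q` (take `a = p`,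
  `segment_symm`).
* `edge_nb`: `edge_eq` and `ext_face`, `edge_at`.
* `nb_seg_inj`: `ext [x,a] = {x,a}` (for `x ≠ a`; from `edge_eq` and `nb_dim`, or prove it directly), so `{x,a} = {x,b}`.
-/

namespace Pool.Agent.H20.PX

open Set Pool.Agent.H61.PO Pool.Agent.H40.PC

variable {E : Type*} [NormedAddCommGroup E] [NormedSpace ℝ E] [FiniteDimensional ℝ E]
  {K F G : Set E} {x a b : E}

theorem nb_symm : a ∈ nb K x ↔ x ∈ nb K a := by
  show (a ≠ x ∧ IsFace K (segment ℝ x a)) ↔ (x ≠ a ∧ IsFace K (segment ℝ a x))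
  rw [segment_symm, ne_comm]

omit [FiniteDimensional ℝ E] in
private theorem left_ext (h : x ≠ a) : x ∈ extremePoints ℝ (segment ℝ x a) := by
  obtain ⟨φ, h1, h2⟩ := edge_coord h
  refine two_ext_min h2 (left_mem_segment ℝ x a) ?_
  intro z hz
  rw [segment_eq_image'] at hz
  obtain ⟨t, ht, rfl⟩ := hz
  show φ x ≤ φ (x + t • (a - x))
  rw [map_add, map_smul, map_sub, smul_eq_mul]
  have := mul_nonneg ht.1 (sub_pos.2 h1).le
  linarith

omit [FiniteDimensional ℝ E] in
private theorem right_ext (h : x ≠ a) : a ∈ extremePoints ℝ (segment ℝ x a) := by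
  rw [segment_symm]
  exact left_ext h.symm

theorem nb_ext (h : a ∈ nb K x) : x ∈ extremePoints ℝ K ∧ a ∈ extremePoints ℝ K := by
  have h1 := ext_face h.2
  have h2 := left_ext (Ne.symm h.1)
  have h3 := right_ext (Ne.symm h.1)
  rw [h1] at h2 h3
  exact ⟨h2.2, h3.2⟩

theorem nb_finite (hf : (extremePoints ℝ K).Finite) (x : E) : (nb K x).Finite :=
  hf.subset fun _ ha => (nb_ext ha).2

theorem nb_face (hG : IsFace K G) (hx : x ∈ G) : nb G x = nb K x ∩ G := by
  ext a
  constructor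
  · rintro ⟨h1, h2⟩
    exact ⟨⟨h1, hG.trans h2⟩, h2.sub (right_mem_segment ℝ x a)⟩
  · rintro ⟨⟨h1, h2⟩, h3⟩
    exact ⟨h1, h2.mono hG.sub (hG.2.1.segment_subset hx h3)⟩

theorem nb_dim (h : x ≠ a) : dimc (segment ℝ x a) = 1 := by
  rw [← convexHull_pair, dimc_convexHull]
  unfold dimc
  rw [vectorSpan_pair]
  exact finrank_span_singleton (vsub_ne_zero.2 h)

theorem seg_ext (h : x ≠ a) : extremePoints ℝ (segment ℝ x a) = {x, a} := by
  apply Subset.antisymm
  · have h := extremePoints_convexHull_subset (𝕜 := ℝ) (A := ({x, a} : Set E))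
    rw [convexHull_pair] at h
    exact h
  · rintro z (rfl | hz)
    · exact left_ext h
    · rw [mem_singleton_iff.1 hz]
      exact right_ext h

theorem edge_at (hF : IsFace K F) (hd : dimc F = 1) (hx : x ∈ extremePoints ℝ K) (hxF : x ∈ F) :
    ∃ a ∈ nb K x, F = segment ℝ x a := by
  obtain ⟨p, q, hpq, h1, h2⟩ := edge_eq hF.body hd
  have h3 : x ∈ extremePoints ℝ F := by
    rw [ext_face hF]
    exact ⟨hxF, hx⟩
  rw [h2] at h3
  rcases h3 with rfl | h3
  · exact ⟨q, ⟨hpq.symm, h1 ▸ hF⟩, h1⟩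
  · rw [mem_singleton_iff] at h3
    subst h3
    rw [segment_symm] at h1
    exact ⟨p, ⟨hpq, h1 ▸ hF⟩, h1⟩

theorem edge_nb (hF : IsFace K F) (hd : dimc F = 1) : ∃ x a, a ∈ nb K x ∧ F = segment ℝ x a := by
  obtain ⟨p, q, hpq, h1, h2⟩ := edge_eq hF.body hd
  exact ⟨p, q, ⟨hpq.symm, h1 ▸ hF⟩, h1⟩

theorem nb_seg_inj (ha : a ∈ nb K x) (hb : b ∈ nb K x) (h : segment ℝ x a = segment ℝ x b) :
    a = b := by
  have h1 := seg_ext (Ne.symm ha.1)
  have h2 := seg_ext (Ne.symm hb.1)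
  rw [h, h2] at h1
  have h3 : a ∈ ({x, b} : Set E) := by
    rw [h1]
    exact mem_insert_of_mem x rfl
  rcases h3 with h3 | h3
  · exact absurd h3 ha.1
  · exact h3

end Pool.Agent.H20.PX
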