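import Pool.Agent.H20.PX.Defs

/-!
# PX-02 the cone `x + cone {a - x : a ∈ N}`

* `cone_convex`: for `y = x + ∑ l a • (a - x)`, `y' = x + ∑ l' a • (a - x)`, `s + t = 1`: take `fun a => s * l a + t * l' a`.
* `cone_self`: `l = 0`.
* `cone_ray`: multiply `l` by `t`.
* `cone_of_ray`: `y = x + s⁻¹ • ((x + s • (y - x)) - x)` and `cone_ray`.
* `cone_seg`: `p = x + t (a - x)`, `l = Pi.single a t` or `fun b => if b = a then t else 0`.
* `cone_span`: every `l a • (a - x)` is in the span; `Submodule.sum_mem`.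
-/

namespace Pool.Agent.H20.PX

open Set Pool.Agent.H61.PO Pool.Agent.H40.PC

variable {E : Type*} [NormedAddCommGroup E] [NormedSpace ℝ E] {N : Finset E} {x y a p : E}

theorem cone_convex (x : E) (N : Finset E) : Convex ℝ (cone x N) := by
  rintro _ ⟨l, hl, rfl⟩ _ ⟨l', hl', rfl⟩ s t hs ht hst
  refine ⟨fun a => s * l a + t * l' a, fun a => ?_, ?_⟩
  · have h1 := hl a
    have h2 := hl' a
    positivity
  · have h1 : s • x + t • x = x := by rw [← add_smul, hst, one_smul]
    simp only [add_smul, mul_smul, Finset.sum_add_distrib, ← Finset.smul_sum, smul_add]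
    rw [add_add_add_comm, h1]

theorem cone_self (x : E) (N : Finset E) : x ∈ cone x N :=
  ⟨fun _ => 0, fun _ => le_refl _, by simp⟩

theorem cone_ray (hy : y ∈ cone x N) {t : ℝ} (ht : 0 ≤ t) : x + t • (y - x) ∈ cone x N := by
  obtain ⟨l, hl, rfl⟩ := hy
  refine ⟨fun a => t * l a, fun a => mul_nonneg ht (hl a), ?_⟩
  simp only [mul_smul, ← Finset.smul_sum, add_sub_cancel_left]

theorem cone_of_ray {s : ℝ} (hs : 0 < s) (h : x + s • (y - x) ∈ cone x N) : y ∈ cone x N := by
  have h1 := cone_ray h (inv_nonneg.mpr hs.le)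
  rwa [add_sub_cancel_left, smul_smul, inv_mul_cancel₀ hs.ne', one_smul, add_sub_cancel] at h1

theorem cone_seg (ha : a ∈ N) (hp : p ∈ segment ℝ x a) : p ∈ cone x N := by
  classical
  obtain ⟨s, t, hs, ht, hst, rfl⟩ := hp
  refine ⟨fun b => if b = a then t else 0, fun b => ?_, ?_⟩
  · dsimp only
    split_ifs
    · exact ht
    · exact le_refl _
  · have h1 : ∑ b ∈ N, (if b = a then t else 0) • (b - x) = t • (a - x) := by
      rw [Finset.sum_eq_single a]
      · rw [if_pos rfl]
      · intro b _ hb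
        rw [if_neg hb, zero_smul]
      · intro h
        exact absurd ha h
    have h2 : s = 1 - t := by linarith
    rw [h1, h2, sub_smul, one_smul, smul_sub]
    abel

theorem cone_span (hy : y ∈ cone x N) :
    y - x ∈ Submodule.span ℝ ((fun a => a - x) '' (N : Set E)) := by
  obtain ⟨l, hl, rfl⟩ := hy
  rw [add_sub_cancel_left]
  exact Submodule.sum_mem _ fun a ha =>
    Submodule.smul_mem _ _ (Submodule.subset_span ⟨a, ha, rfl⟩)

end Pool.Agent.H20.PX
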