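import Pool.Agent.H20.PX.A

/-!
# PX-03 cutting off a vertex

* `vertex_sep`: `V' = extremePoints ℝ K \ {x}` is finite; `C = convexHull ℝ V'` is compact (`hull_compact`, `Set.Finite.isCompact`), convex, contained in `K`; `x ∉ C` by
  `ext_mem_of_hull`.  If `V'` is empty take `z = 0`, `c = -1`.  Otherwise `Body C` and `sep_seg` with `p = q = x` (`segment_same`) gives `z, c` with `z < c` on `C` and `c < z x`.
* `slice_ext` (`c < z x`, `z v < c` for the other vertices, `p` an extreme point of `P' = {y ∈ K : z y = c}`): let `H = mface K p`, `p ∈ ri H` (`mem_ri_mface`).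
  - `dimc H ≠ 0`: otherwise `p ∈ extremePoints ℝ K` (`mface_zero`), but `z p = c`, `z x > c` and `z v < c` for `v ≠ x`.
  - `dimc H < 2`: otherwise the kernel of `z` restricted to `vectorSpan ℝ H` (dimension `≥ 2`) contains `u ≠ 0` (`LinearMap.finrank_range_add_finrank_ker` or
    `LinearMap.exists_ne_zero_of_finrank_lt`-style lemma).  `ri_open`: for small `ε > 0` both `p + ε u` and `p - ε u` are in `ri H ⊆ H ⊆ K` (they are in
    `affineSpan ℝ H`: `AffineSubspace.vadd_mem_of_mem_direction`, `direction_affineSpan`), and `z (p ± ε u) = c`, so both are in `P'` and `p` is their midpoint, so `p + ε u = p`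
    as `p` is extreme in `P'`; contradiction.
  - So `dimc H = 1`, `H = [s,t]`, `ext H = {s,t}`, `s ≠ t`, both are in `extremePoints ℝ K` (`ext_face`).  If `s ≠ x` and `t ≠ x` then `z < c` on `[s,t]`, contradiction to
    `z p = c`.  So `x ∈ H`, and `edge_at` gives `a ∈ nb K x` with `H = [x,a] ∋ p`.
-/

namespace Pool.Agent.H20.PX

open Set Pool.Agent.H61.PO Pool.Agent.H40.PC

variable {E : Type*} [NormedAddCommGroup E] [NormedSpace ℝ E] [FiniteDimensional ℝ E]
  {K : Set E} {x p : E}

theorem vertex_sep (hK : Body K) (hf : (extremePoints ℝ K).Finite) (hx : x ∈ extremePoints ℝ K) :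
    ∃ (z : E →L[ℝ] ℝ) (c : ℝ), c < z x ∧ ∀ v ∈ extremePoints ℝ K, v ≠ x → z v < c := by
  rcases (extremePoints ℝ K \ {x}).eq_empty_or_nonempty with he | hne
  · refine ⟨0, -1, by simp, fun v hv hvx => ?_⟩
    have h1 : v ∈ extremePoints ℝ K \ {x} := ⟨hv, hvx⟩
    rw [he] at h1
    exact absurd h1 (notMem_empty v)
  · have hC : Body (convexHull ℝ (extremePoints ℝ K \ {x})) :=
      ⟨convex_convexHull ℝ _, hull_compact (hf.subset sdiff_subset).isCompact,
        hne.mono (subset_convexHull ℝ _)⟩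
    have hx' : x ∉ convexHull ℝ (extremePoints ℝ K \ {x}) := fun h =>
      (ext_mem_of_hull hK.1 hx (sdiff_subset.trans extremePoints_subset) h).2 rfl
    have hd : Disjoint (segment ℝ x x) (convexHull ℝ (extremePoints ℝ K \ {x})) := by
      rw [segment_same]
      exact disjoint_singleton_left.2 hx'
    obtain ⟨z, c, h1, h2, -⟩ := sep_seg hC hd
    exact ⟨z, c, h2, fun v hv hvx => h1 v (subset_convexHull ℝ _ ⟨hv, hvx⟩)⟩

/-- the smallest face of a vertex of a slice has dimension less than two -/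
private theorem sliceExt_dim (hK : Body K) {z : E →L[ℝ] ℝ} {c : ℝ}
    (hp : p ∈ extremePoints ℝ {y | y ∈ K ∧ z y = c}) : dimc (mface K p) < 2 := by
  obtain ⟨hpK, hzp⟩ : p ∈ K ∧ z p = c := hp.1
  by_contra hcon
  have hH := mface_isFace hK hpK
  have hri := mem_ri_mface hK hpK
  have h1 : Module.finrank ℝ ℝ < Module.finrank ℝ (vectorSpan ℝ (mface K p)) := by
    rw [Module.finrank_self]
    exact (not_lt.1 hcon)
  have h2 := LinearMap.ker_ne_bot_of_finrank_lt
    (f := (z : E →ₗ[ℝ] ℝ).comp (vectorSpan ℝ (mface K p)).subtype) h1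
  obtain ⟨u, hu, hu0⟩ := (Submodule.ne_bot_iff _).1 h2
  have hzu : z (u : E) = 0 := hu
  have hu0' : (u : E) ≠ 0 := fun h => hu0 (Subtype.ext h)
  obtain ⟨r, hr, hball⟩ := ri_open hri
  have hun : 0 < ‖(u : E)‖ := norm_pos_iff.2 hu0'
  obtain ⟨ε, hε, hεr⟩ : ∃ ε : ℝ, 0 < ε ∧ ε * ‖(u : E)‖ < r :=
    ⟨r / (2 * ‖(u : E)‖), by positivity, by field_simp; linarith⟩
  have key : ∀ t : ℝ, |t| = ε → p + t • (u : E) ∈ {y | y ∈ K ∧ z y = c} := by
    intro t ht
    constructor
    · apply hH.sub
      apply ri_sub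
      apply hball
      · have h3 : p ∈ affineSpan ℝ (mface K p) := subset_affineSpan ℝ _ (mem_mface K p)
        have h4 : t • (u : E) ∈ (affineSpan ℝ (mface K p)).direction := by
          rw [direction_affineSpan]
          exact Submodule.smul_mem _ _ u.2
        have h5 := AffineSubspace.vadd_mem_of_mem_direction h4 h3
        rwa [vadd_eq_add, add_comm] at h5
      · rw [dist_eq_norm, add_sub_cancel_left, norm_smul, Real.norm_eq_abs, ht]
        exact hεr
    · show z (p + t • (u : E)) = c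
      rw [map_add, map_smul, hzu, smul_zero, add_zero, hzp]
  have k1 := key ε (abs_of_pos hε)
  have k2 := key (-ε) (by rw [abs_neg, abs_of_pos hε])
  have hmid : p ∈ openSegment ℝ (p + ε • (u : E)) (p + (-ε) • (u : E)) := by
    refine ⟨1 / 2, 1 / 2, by norm_num, by norm_num, by norm_num, ?_⟩
    match_scalars <;> ring
  have h6 := hp.2 k1 k2 hmid
  have h7 : ε • (u : E) = 0 := left_eq_add.1 h6.symm
  rcases smul_eq_zero.1 h7 with h8 | h8
  · exact hε.ne' h8
  · exact hu0' h8

theorem slice_ext (hK : Body K) (hx : x ∈ extremePoints ℝ K) {z : E →L[ℝ] ℝ} {c : ℝ}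
    (h1 : c < z x) (h2 : ∀ v ∈ extremePoints ℝ K, v ≠ x → z v < c)
    (hp : p ∈ extremePoints ℝ {y | y ∈ K ∧ z y = c}) : ∃ a ∈ nb K x, p ∈ segment ℝ x a := by
  obtain ⟨hpK, hzp⟩ : p ∈ K ∧ z p = c := hp.1
  have hH := mface_isFace hK hpK
  have hpH : p ∈ mface K p := mem_mface K p
  have hd2 := sliceExt_dim hK hp
  have hd0 : dimc (mface K p) ≠ 0 := by
    intro h0
    have h3 := (mface_zero hK hpK h0).2
    by_cases hpx : p = x
    · rw [hpx] at hzp
      linarith
    · have := h2 p h3 hpx
      linarith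
  have hd1 : dimc (mface K p) = 1 := by omega
  have hxH : x ∈ mface K p := by
    by_contra hx'
    obtain ⟨s, t, hst, hseg, hext⟩ := edge_eq hH.body hd1
    have he := ext_face hH
    rw [hext] at he
    have hs : s ∈ mface K p ∩ extremePoints ℝ K := by
      rw [← he]
      exact mem_insert _ _
    have ht : t ∈ mface K p ∩ extremePoints ℝ K := by
      rw [← he]
      exact mem_insert_of_mem _ rfl
    have hs1 := h2 s hs.2 fun h => hx' (h ▸ hs.1)
    have ht1 := h2 t ht.2 fun h => hx' (h ▸ ht.1)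
    rw [hseg] at hpH
    obtain ⟨a, b, ha, hb, hab, hp'⟩ := hpH
    rw [← hp', map_add, map_smul, map_smul, smul_eq_mul, smul_eq_mul] at hzp
    have h4 : a * z s + b * z t < c := by
      rcases ha.eq_or_lt with ha0 | ha0
      · have hb1 : b = 1 := by linarith
        rw [← ha0, hb1]
        linarith
      · have h5 : a * z s < a * c := mul_lt_mul_of_pos_left hs1 ha0
        have h6 : b * z t ≤ b * c := mul_le_mul_of_nonneg_left ht1.le hb
        have h7 : a * c + b * c = c := by rw [← add_mul, hab, one_mul]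
        linarith
    linarith
  obtain ⟨a, ha, hseg⟩ := edge_at hH hd1 hx hxH
  refine ⟨a, ha, ?_⟩
  rw [← hseg]
  exact hpH

end Pool.Agent.H20.PX
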