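import Pool.Agent.H20.PX.B
import Pool.Agent.H20.PX.C

/-!
# PX-04 `K` is contained in the cone of the edges at a vertex; numbers of vertices and of neighbours

* `cone_main`: take `z, c` from `vertex_sep`.  `P' = {y ∈ K : z y = c}` is convex and compact.  `P' ⊆ cone x N`: if `P'` is not empty it is a `Body`, `hull_ext`
  gives `P' = convexHull ℝ (extremePoints ℝ P')`, every extreme point is in some `[x,a]`, `a ∈ nb K x` (`slice_ext`), so in `cone x N` (`cone_seg`), which is convex
  (`cone_convex`, `convexHull_min`).
  Every vertex `v ≠ x` is in `cone x N`: `z v < c < z x`, with `s = (z x - c) / (z x - z v) ∈ (0,1)` the point `q = x + s • (v - x)` is in `K` (convex), `z q = c`, so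
  `q ∈ P' ⊆ cone x N` and `cone_of_ray`.  `x ∈ cone x N` (`cone_self`).  `K = convexHull ℝ (extremePoints ℝ K) ⊆ cone x N` (`hull_ext`, `convexHull_min`).
* `deg_ge`: let `N` be the finset of `nb K x` (`nb_finite`, `Set.Finite.toFinset`).  `vectorSpan ℝ K ≤ span {a - x : a ∈ N}`: for `y, y' ∈ K`,
  `y - y' = (y - x) - (y' - x)` (`cone_span`; `vectorSpan_def`, `Submodule.span_le`).  `finrank_span_finset_le_card` (or `finrank_span_le_card`), and the image finset
  has at most `N.card` elements (`Finset.card_image_le`); `Submodule.finrank_mono`; `Set.ncard_eq_toFinset_card`.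
* `ext_ge`: `dimc K = dimc (extremePoints ℝ K)` (`hull_ext`, `dimc_convexHull`); a finite set with `n ≥ 1` points has `finrank (vectorSpan) ≤ n - 1`
  (`finrank_vectorSpan_image_finset_le` with the identity, or induction with `dimc_insert`, `dimc_singleton`); `extremePoints ℝ K` is not empty (`hull_ext`, `hK.2.2`).
-/

namespace Pool.Agent.H20.PX

open Set Pool.Agent.H61.PO Pool.Agent.H40.PC

variable {E : Type*} [NormedAddCommGroup E] [NormedSpace ℝ E] [FiniteDimensional ℝ E]
  {K : Set E} {x : E}

theorem cone_main (hK : Body K) (hf : (extremePoints ℝ K).Finite) (hx : x ∈ extremePoints ℝ K)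
    {N : Finset E} (hN : ∀ a, a ∈ N ↔ a ∈ nb K x) : K ⊆ cone x N := by
  obtain ⟨z, c, h1, h2⟩ := vertex_sep hK hf hx
  have hP : {y | y ∈ K ∧ z y = c} ⊆ cone x N := by
    rcases Set.eq_empty_or_nonempty {y | y ∈ K ∧ z y = c} with he | hne
    · rw [he]
      exact empty_subset _
    · have hc : Convex ℝ {y | y ∈ K ∧ z y = c} := by
        intro y hy y' hy' s t hs ht hst
        refine ⟨hK.1 hy.1 hy'.1 hs ht hst, ?_⟩
        rw [map_add, map_smul, map_smul, hy.2, hy'.2, smul_eq_mul, smul_eq_mul, ← add_mul, hst,
          one_mul]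
      have hcl : IsClosed {y | z y = c} := isClosed_eq z.continuous continuous_const
      have hk : IsCompact {y | y ∈ K ∧ z y = c} := hK.2.1.inter_right hcl
      have hB : Body {y | y ∈ K ∧ z y = c} := ⟨hc, hk, hne⟩
      rw [← hull_ext hB]
      refine convexHull_min (fun p hp => ?_) (cone_convex x N)
      obtain ⟨a, ha, hpa⟩ := slice_ext hK hx h1 h2 hp
      exact cone_seg ((hN a).2 ha) hpa
  have hv : ∀ v ∈ extremePoints ℝ K, v ∈ cone x N := by
    intro v hvK
    by_cases hvx : v = x
    · rw [hvx]
      exact cone_self x N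
    · have h3 := h2 v hvK hvx
      have h4 : 0 < z x - z v := by linarith
      have h5 : 0 < z x - c := by linarith
      have hs : 0 < (z x - c) / (z x - z v) := div_pos h5 h4
      have hs1 : (z x - c) / (z x - z v) ≤ 1 := by
        rw [div_le_one h4]
        linarith
      refine cone_of_ray hs (hP ⟨?_, ?_⟩)
      · have h6 := hK.1 hx.1 hvK.1 (sub_nonneg.2 hs1) hs.le (sub_add_cancel 1 _)
        have h7 : x + ((z x - c) / (z x - z v)) • (v - x) =
            (1 - (z x - c) / (z x - z v)) • x + ((z x - c) / (z x - z v)) • v := by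
          rw [smul_sub, sub_smul, one_smul]
          abel
        rw [h7]
        exact h6
      · rw [map_add, map_smul, map_sub, smul_eq_mul]
        field_simp
        ring
  rw [← hull_ext hK]
  exact convexHull_min hv (cone_convex x N)

theorem deg_ge (hK : Body K) (hf : (extremePoints ℝ K).Finite) (hx : x ∈ extremePoints ℝ K) :
    dimc K ≤ (nb K x).ncard := by
  classical
  have hfin := nb_finite hf x
  have hN : ∀ a, a ∈ hfin.toFinset ↔ a ∈ nb K x := fun a => hfin.mem_toFinset
  have hK' := cone_main hK hf hx hN
  have hle : vectorSpan ℝ K ≤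
      Submodule.span ℝ ((fun a => a - x) '' (hfin.toFinset : Set E)) := by
    rw [vectorSpan_def, Submodule.span_le]
    rintro w ⟨y, hy, y', hy', rfl⟩
    have h1 := cone_span (hK' hy)
    have h2 := cone_span (hK' hy')
    have h3 := Submodule.sub_mem _ h1 h2
    rw [sub_sub_sub_cancel_right] at h3
    exact h3
  have h4 := Submodule.finrank_mono hle
  have h5 : Module.finrank ℝ (Submodule.span ℝ ((fun a => a - x) '' (hfin.toFinset : Set E))) ≤
      (hfin.toFinset.image (fun a => a - x)).card := by
    rw [← Finset.coe_image]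
    exact finrank_span_finset_le_card _
  have h6 : (hfin.toFinset.image (fun a => a - x)).card ≤ hfin.toFinset.card :=
    Finset.card_image_le
  rw [Set.ncard_eq_toFinset_card _ hfin]
  exact h4.trans (h5.trans h6)

theorem ext_ge (hK : Body K) (hf : (extremePoints ℝ K).Finite) :
    dimc K + 1 ≤ (extremePoints ℝ K).ncard := by
  have hne : (extremePoints ℝ K).Nonempty := by
    rw [Set.nonempty_iff_ne_empty]
    intro he
    have h1 := hull_ext hK
    rw [he, convexHull_empty] at h1
    exact hK.2.2.ne_empty h1.symm
  have h2 : dimc K = dimc (extremePoints ℝ K) := by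
    conv_lhs => rw [← hull_ext hK]
    exact dimc_convexHull
  haveI : Fintype (extremePoints ℝ K) := hf.fintype
  haveI : Nonempty (extremePoints ℝ K) := hne.to_subtype
  have h3 := finrank_vectorSpan_range_add_one_le ℝ (fun v : extremePoints ℝ K => (v : E))
  rw [Subtype.range_coe] at h3
  rw [h2, ← Nat.card_coe_set_eq, Nat.card_eq_fintype_card]
  exact h3

end Pool.Agent.H20.PX
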