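import Pool.Agent.H40.PC.Two
import Pool.Agent.H40.PC.Mfa
import Pool.Agent.H40.PC.Sli
import Pool.Agent.H40.PC.DimB

/-!
# Pohl's problem Q2 (MP_beb0a3_gt), part X + Z2 + Z3 (polytopes), helper20: definitions

Paper proof: note 1414 (helper61).  `K` is a compact convex set with finitely many extreme points.
`nb K x`: the neighbours of the vertex `x` (other ends of the edges of `K` at `x`).
`cone x N`: the set `x + cone {a - x : a ∈ N}`.
-/

namespace Pool.Agent.H20.PX

open Set Pool.Agent.H61.PO Pool.Agent.H40.PC

variable {E : Type*} [NormedAddCommGroup E] [NormedSpace ℝ E]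

/-- neighbours of `x`: the points `a ≠ x` such that the segment from `x` to `a` is a face of `K` -/
def nb (K : Set E) (x : E) : Set E := {a | a ≠ x ∧ IsFace K (segment ℝ x a)}

/-- the set `x + cone {a - x : a ∈ N}` -/
def cone (x : E) (N : Finset E) : Set E :=
  {y | ∃ l : E → ℝ, (∀ a, 0 ≤ l a) ∧ y = x + ∑ a ∈ N, l a • (a - x)}

/-- the edges (faces of dimension one) of `K` -/
def edges (K : Set E) : Set (Set E) := {F | IsFace K F ∧ dimc F = 1}

end Pool.Agent.H20.PX
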