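import Pool.Agent.H20.PX.D

/-!
# PX-07 counting the edges

* `edges_finite`: by `edge_nb` and `nb_ext` `edges K` is contained in the image of the finite set `ext K ×ˢ ext K` under `(x,a) ↦ segment ℝ x a`.
* `handshake`: double counting.  For each `x ∈ ext K` the map `a ↦ segment ℝ x a` is a bijection from `nb K x` to `{F ∈ edges K : x ∈ F}` (`nb_seg_inj`, `edge_at`, `nb_dim`).
  For each `F ∈ edges K` the set of the vertices `x ∈ ext K` with `x ∈ F` has exactly two elements: `ext_face` and `edge_eq` (`ext F = {p,q}`, `p ≠ q`).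
  `Finset.sum_card_bipartiteAbove_eq_sum_card_bipartiteBelow` (or `Finset.card_sigma`/`sum_comm`).
* `deg_mul_le`: `dimc K ≤ (nb K x).ncard` for all `x` (`deg_ge`), sum over `ext K`.
* `deg_eq`: in the sum all the inequalities `dimc K ≤ (nb K x).ncard` must be equalities (`Finset.sum_eq_sum_iff_of_le`).
-/

namespace Pool.Agent.H20.PX

open Set Pool.Agent.H61.PO Pool.Agent.H40.PC

variable {E : Type*} [NormedAddCommGroup E] [NormedSpace ℝ E] [FiniteDimensional ℝ E]
  {K : Set E} {x : E}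

theorem edges_finite (hf : (extremePoints ℝ K).Finite) : (edges K).Finite := by
  refine ((hf.prod hf).image (fun p : E × E => segment ℝ p.1 p.2)).subset ?_
  rintro F ⟨hF, hd⟩
  obtain ⟨x, a, ha, rfl⟩ := edge_nb hF hd
  have h := nb_ext ha
  exact ⟨(x, a), ⟨h.1, h.2⟩, rfl⟩

private theorem g_deg (x : E) (hx : x ∈ extremePoints ℝ K) :
    (nb K x).ncard = {F | F ∈ edges K ∧ x ∈ F}.ncard := by
  have h1 : {F | F ∈ edges K ∧ x ∈ F} = (fun a => segment ℝ x a) '' nb K x := by
    ext F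
    constructor
    · rintro ⟨⟨hF, hd⟩, hxF⟩
      obtain ⟨a, ha, rfl⟩ := edge_at hF hd hx hxF
      exact ⟨a, ha, rfl⟩
    · rintro ⟨a, ha, rfl⟩
      exact ⟨⟨ha.2, nb_dim ha.1.symm⟩, left_mem_segment ℝ x a⟩
  rw [h1, Set.ncard_image_of_injOn]
  intro a ha b hb h
  exact nb_seg_inj ha hb h

private theorem g_two {F : Set E} (hF : F ∈ edges K) :
    {x | x ∈ extremePoints ℝ K ∧ x ∈ F}.ncard = 2 := by
  obtain ⟨hF1, hd⟩ := hF
  obtain ⟨x, a, ha, rfl⟩ := edge_nb hF1 hd
  have h1 : {y | y ∈ extremePoints ℝ K ∧ y ∈ segment ℝ x a} = {x, a} := by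
    rw [← seg_ext ha.1.symm, ext_face hF1]
    ext y
    constructor
    · rintro ⟨h1, h2⟩
      exact ⟨h2, h1⟩
    · rintro ⟨h1, h2⟩
      exact ⟨h2, h1⟩
  rw [h1, Set.ncard_pair ha.1.symm]

theorem handshake (hf : (extremePoints ℝ K).Finite) :
    ∑ x ∈ hf.toFinset, (nb K x).ncard = 2 * (edges K).ncard := by
  classical
  have hE := edges_finite hf
  have h1 : ∀ x ∈ hf.toFinset, (nb K x).ncard =
      (hE.toFinset.bipartiteAbove (fun (x : E) (F : Set E) => x ∈ F) x).card := by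
    intro x hx
    rw [g_deg x (hf.mem_toFinset.1 hx), ← Set.ncard_coe_finset]
    congr 1
    ext F
    simp [Finset.bipartiteAbove]
  have h2 : ∀ F ∈ hE.toFinset,
      (hf.toFinset.bipartiteBelow (fun (x : E) (F : Set E) => x ∈ F) F).card = 2 := by
    intro F hF
    rw [← g_two (hE.mem_toFinset.1 hF), ← Set.ncard_coe_finset]
    congr 1
    ext y
    simp [Finset.bipartiteBelow]
  rw [Finset.sum_congr rfl h1, Finset.sum_card_bipartiteAbove_eq_sum_card_bipartiteBelow,
    Finset.sum_congr rfl h2, Finset.sum_const, Set.ncard_eq_toFinset_card _ hE, smul_eq_mul,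
    mul_comm]

theorem deg_mul_le (hK : Body K) (hf : (extremePoints ℝ K).Finite) :
    dimc K * (extremePoints ℝ K).ncard ≤ 2 * (edges K).ncard := by
  rw [← handshake hf, Set.ncard_eq_toFinset_card _ hf]
  calc dimc K * hf.toFinset.card = ∑ _x ∈ hf.toFinset, dimc K := by
        rw [Finset.sum_const, smul_eq_mul, mul_comm]
    _ ≤ ∑ x ∈ hf.toFinset, (nb K x).ncard :=
        Finset.sum_le_sum fun x hx => deg_ge hK hf (hf.mem_toFinset.1 hx)

theorem deg_eq (hK : Body K) (hf : (extremePoints ℝ K).Finite)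
    (h : dimc K * (extremePoints ℝ K).ncard = 2 * (edges K).ncard)
    (hx : x ∈ extremePoints ℝ K) : (nb K x).ncard = dimc K := by
  rw [← handshake hf, Set.ncard_eq_toFinset_card _ hf] at h
  have h1 : ∑ _x ∈ hf.toFinset, dimc K = ∑ x ∈ hf.toFinset, (nb K x).ncard := by
    rw [← h, Finset.sum_const, smul_eq_mul, mul_comm]
  exact ((Finset.sum_eq_sum_iff_of_le
    fun x hx => deg_ge hK hf (hf.mem_toFinset.1 hx)).1 h1 x (hf.mem_toFinset.2 hx)).symm

end Pool.Agent.H20.PX
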